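import Mathlib

set_option autoImplicit false

namespace Pool.Agent.H144Z.QStar

/-- A finite presentation: `g` generators (indexed by `Fin g`) and `h` relators, each an element
of the free group on the generators. -/
structure Pres where
  /-- number of generators -/
  g : ℕ
  /-- number of relators -/
  h : ℕ
  /-- the relators -/
  rel : Fin h → FreeGroup (Fin g)

/-- The endomorphism of the free group that substitutes the word `w` for the generator `a_i`
and fixes all other generators. -/
def subst {g : ℕ} (i : Fin g) (w : FreeGroup (Fin g)) :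
    FreeGroup (Fin g) →* FreeGroup (Fin g) :=
  FreeGroup.lift (Function.update FreeGroup.of i w)

/-- Prolongation: a new generator `a` is inserted at position `i` of the generator list, and the
new relator `a` is inserted at position `j` of the relator list; the old relators are kept (they
are words in the old generators, so `a` occurs in no other relator). -/
def prolong (P : Pres) (i : Fin (P.g + 1)) (j : Fin (P.h + 1)) : Pres :=
  ⟨P.g + 1, P.h + 1,
    Fin.insertNth (α := fun _ => FreeGroup (Fin (P.g + 1))) j (FreeGroup.of i)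
      (fun k => FreeGroup.map i.succAbove (P.rel k))⟩

/-- The elementary moves: Q-moves, Nielsen moves, prolongation and its reverse. -/
inductive Move : Pres → Pres → Prop
  | conj (g h : ℕ) (R : Fin h → FreeGroup (Fin g)) (j : Fin h) (w : FreeGroup (Fin g)) :
      Move ⟨g, h, R⟩ ⟨g, h, Function.update R j (w * R j * w⁻¹)⟩
  | inv (g h : ℕ) (R : Fin h → FreeGroup (Fin g)) (j : Fin h) :
      Move ⟨g, h, R⟩ ⟨g, h, Function.update R j (R j)⁻¹⟩
  | mulRight (g h : ℕ) (R : Fin h → FreeGroup (Fin g)) (j k : Fin h) (hk : k ≠ j) :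
      Move ⟨g, h, R⟩ ⟨g, h, Function.update R j (R j * R k)⟩
  | mulLeft (g h : ℕ) (R : Fin h → FreeGroup (Fin g)) (j k : Fin h) (hk : k ≠ j) :
      Move ⟨g, h, R⟩ ⟨g, h, Function.update R j (R k * R j)⟩
  | nielsenInv (g h : ℕ) (R : Fin h → FreeGroup (Fin g)) (i : Fin g) :
      Move ⟨g, h, R⟩ ⟨g, h, fun j => subst i (FreeGroup.of i)⁻¹ (R j)⟩
  | nielsenRight (g h : ℕ) (R : Fin h → FreeGroup (Fin g)) (i k : Fin g) (hk : k ≠ i) :
      Move ⟨g, h, R⟩ ⟨g, h, fun j => subst i (FreeGroup.of i * FreeGroup.of k) (R j)⟩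
  | nielsenLeft (g h : ℕ) (R : Fin h → FreeGroup (Fin g)) (i k : Fin g) (hk : k ≠ i) :
      Move ⟨g, h, R⟩ ⟨g, h, fun j => subst i (FreeGroup.of k * FreeGroup.of i) (R j)⟩
  | prolong (P : Pres) (i : Fin (P.g + 1)) (j : Fin (P.h + 1)) : Move P (prolong P i j)
  | delete (P : Pres) (i : Fin (P.g + 1)) (j : Fin (P.h + 1)) : Move (prolong P i j) P

/-- `QEquiv P Q`: a finite sequence of elementary moves carries `P` to `Q`. -/
def QEquiv (P Q : Pres) : Prop := Relation.ReflTransGen Move P Q

/-- The presentation with generators `a_1, ..., a_g, b_1, b_2` and relators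
`R_1, ..., R_h, S b_1^(-1), b_1^3 b_2^(-5), b_1^3 (b_1 b_2)^(-2)`. -/
def presP {g h : ℕ} (R : Fin h → FreeGroup (Fin g)) (S : FreeGroup (Fin g)) : Pres :=
  ⟨g + 2, h + 3,
    Fin.append (fun j => FreeGroup.map (Fin.castAdd 2) (R j))
      ![FreeGroup.map (Fin.castAdd 2) S * (FreeGroup.of (Fin.natAdd g 0))⁻¹,
        FreeGroup.of (Fin.natAdd g 0) ^ 3 * (FreeGroup.of (Fin.natAdd g 1) ^ 5)⁻¹,
        FreeGroup.of (Fin.natAdd g 0) ^ 3 *
          ((FreeGroup.of (Fin.natAdd g 0) * FreeGroup.of (Fin.natAdd g 1)) ^ 2)⁻¹]⟩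

/-- The presentation with generators `a_1, ..., a_g` and relators `R_1, ..., R_h, S`. -/
def presQ {g h : ℕ} (R : Fin h → FreeGroup (Fin g)) (S : FreeGroup (Fin g)) : Pres :=
  ⟨g, h + 1, Fin.append R ![S]⟩

end Pool.Agent.H144Z.QStar
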