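import Pool.Agent.H144Z.QStar.Defs

set_option autoImplicit false

namespace Pool.Agent.H144Z.QStar

open Function

theorem QEquiv.trans' {P Q T : Pres} (a : QEquiv P Q) (b : QEquiv Q T) : QEquiv P T :=
  Relation.ReflTransGen.trans a b

theorem QEquiv.one {P Q : Pres} (a : Move P Q) : QEquiv P Q := Relation.ReflTransGen.single a

theorem QEquiv.of_eq {g h : ℕ} {R R' : Fin h → FreeGroup (Fin g)} (e : R = R') :
    QEquiv ⟨g, h, R⟩ ⟨g, h, R'⟩ := by
  subst e; exact Relation.ReflTransGen.refl

theorem mul_conj {g h : ℕ} (R : Fin h → FreeGroup (Fin g)) (j k : Fin h) (hk : k ≠ j)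
    (w : FreeGroup (Fin g)) :
    QEquiv ⟨g, h, R⟩ ⟨g, h, update R j (R j * (w * R k * w⁻¹))⟩ := by
  refine (QEquiv.one (Move.conj g h R k w)).trans' ?_
  refine (QEquiv.one (Move.mulRight g h _ j k hk)).trans' ?_
  refine (QEquiv.one (Move.conj g h _ k w⁻¹)).trans' (QEquiv.of_eq ?_)
  funext i
  by_cases h1 : i = k
  · subst h1
    simp [update_of_ne hk, mul_assoc]
  · by_cases h2 : i = j
    · subst h2
      simp [update_of_ne h1]
    · simp [update_of_ne h1, update_of_ne h2]

theorem mul_conj_inv {g h : ℕ} (R : Fin h → FreeGroup (Fin g)) (j k : Fin h) (hk : k ≠ j)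
    (w : FreeGroup (Fin g)) :
    QEquiv ⟨g, h, R⟩ ⟨g, h, update R j (R j * (w * R k * w⁻¹)⁻¹)⟩ := by
  refine (QEquiv.one (Move.inv g h R k)).trans' ?_
  refine (mul_conj _ j k hk w).trans' ?_
  refine (QEquiv.one (Move.inv g h _ k)).trans' (QEquiv.of_eq ?_)
  funext i
  by_cases h1 : i = k
  · subst h1
    simp [update_of_ne hk]
  · by_cases h2 : i = j
    · subst h2
      simp [update_of_ne h1, mul_assoc]
    · simp [update_of_ne h1, update_of_ne h2]

/-- a relator can be changed modulo the normal closure of the other relators -/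
theorem replace {g h : ℕ} (R : Fin h → FreeGroup (Fin g)) (j : Fin h) (y : FreeGroup (Fin g))
    (hy : (R j)⁻¹ * y ∈ Subgroup.normalClosure (R '' {k | k ≠ j})) :
    QEquiv ⟨g, h, R⟩ ⟨g, h, update R j y⟩ := by
  have key : ∀ n ∈ Subgroup.normalClosure (R '' {k | k ≠ j}),
      (∀ x, QEquiv ⟨g, h, update R j x⟩ ⟨g, h, update R j (x * n)⟩) ∧
      (∀ x, QEquiv ⟨g, h, update R j x⟩ ⟨g, h, update R j (x * n⁻¹)⟩) := by
    intro n hn
    unfold Subgroup.normalClosure at hn
    induction hn using Subgroup.closure_induction with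
    | mem n hn =>
      obtain ⟨r, ⟨k, hk, rfl⟩, hc⟩ := Group.mem_conjugatesOfSet_iff.1 hn
      obtain ⟨w, rfl⟩ := isConj_iff.1 hc
      have hk' : k ≠ j := hk
      constructor
      · intro x
        refine (mul_conj (update R j x) j k hk' w).trans' (QEquiv.of_eq ?_)
        simp [update_of_ne hk']
      · intro x
        refine (mul_conj_inv (update R j x) j k hk' w).trans' (QEquiv.of_eq ?_)
        simp [update_of_ne hk']
    | one => exact ⟨fun x => QEquiv.of_eq (by simp), fun x => QEquiv.of_eq (by simp)⟩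
    | mul a b _ _ ha hb =>
      constructor
      · intro x
        refine (ha.1 x).trans' ((hb.1 _).trans' (QEquiv.of_eq ?_))
        rw [mul_assoc]
      · intro x
        refine (hb.2 x).trans' ((ha.2 _).trans' (QEquiv.of_eq ?_))
        rw [mul_inv_rev, mul_assoc]
    | inv a _ ha => exact ⟨ha.2, by simpa using ha.1⟩
  have := (key _ hy).1 (R j)
  simpa using this

/-- semantic form of `replace` -/
theorem replace' {g h : ℕ} (R : Fin h → FreeGroup (Fin g)) (j : Fin h) (y : FreeGroup (Fin g))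
    (hy : ∀ (H : Type) [Group H] (φ : FreeGroup (Fin g) →* H), (∀ k, k ≠ j → φ (R k) = 1) →
      φ (R j) = φ y) :
    QEquiv ⟨g, h, R⟩ ⟨g, h, update R j y⟩ := by
  apply replace
  have := hy _ (QuotientGroup.mk' (Subgroup.normalClosure (R '' {k | k ≠ j}))) (by
    intro k hk
    rw [QuotientGroup.mk'_apply, QuotientGroup.eq_one_iff]
    exact Subgroup.subset_normalClosure ⟨k, hk, rfl⟩)
  rw [QuotientGroup.mk'_apply, QuotientGroup.mk'_apply, QuotientGroup.eq] at this
  exact this

section three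
variable {g h : ℕ} (R : Fin h → FreeGroup (Fin g))

theorem upd (v : Fin 3 → FreeGroup (Fin g)) (i : Fin 3) (y : FreeGroup (Fin g)) :
    update (Fin.append R v) (Fin.natAdd h i) y = Fin.append R (update v i y) := by
  funext k
  refine Fin.addCases (fun k => ?_) (fun k => ?_) k
  · have : Fin.castAdd 3 k ≠ Fin.natAdd h i := by
      intro e
      have := congrArg Fin.val e
      simp at this
      omega
    simp [update_of_ne this]
  · by_cases e : k = i
    · subst e; simp
    · have : Fin.natAdd h k ≠ Fin.natAdd h i := by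
        intro e'
        apply e
        have := congrArg Fin.val e'
        simp at this
        exact Fin.ext this
      simp [update_of_ne this, update_of_ne e]

theorem rep3 (v : Fin 3 → FreeGroup (Fin g)) (i : Fin 3) (y : FreeGroup (Fin g))
    (hy : ∀ (H : Type) [Group H] (φ : FreeGroup (Fin g) →* H), (∀ k, φ (R k) = 1) →
      (∀ l, l ≠ i → φ (v l) = 1) → φ (v i) = φ y) :
    QEquiv ⟨g, h + 3, Fin.append R v⟩ ⟨g, h + 3, Fin.append R (update v i y)⟩ := by
  rw [← upd]
  apply replace'
  intro H _ φ hφ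
  rw [Fin.append_right]
  apply hy H φ
  · intro k
    have := hφ (Fin.castAdd 3 k) (by
      intro e
      have := congrArg Fin.val e
      simp at this
      omega)
    simpa using this
  · intro l hl
    have := hφ (Fin.natAdd h l) (by
      intro e'
      apply hl
      have := congrArg Fin.val e'
      simp at this
      exact Fin.ext this)
    simpa using this

theorem rep0 (t u w y : FreeGroup (Fin g))
    (hy : ∀ (H : Type) [Group H] (φ : FreeGroup (Fin g) →* H), (∀ k, φ (R k) = 1) →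
      φ u = 1 → φ w = 1 → φ t = φ y) :
    QEquiv ⟨g, h + 3, Fin.append R ![t, u, w]⟩ ⟨g, h + 3, Fin.append R ![y, u, w]⟩ := by
  refine (rep3 R _ 0 y ?_).trans' (QEquiv.of_eq ?_)
  · intro H _ φ h1 h2
    exact hy H φ h1 (h2 1 (by decide)) (h2 2 (by decide))
  · congr 1
    funext l
    fin_cases l <;> simp

theorem rep1 (t u w y : FreeGroup (Fin g))
    (hy : ∀ (H : Type) [Group H] (φ : FreeGroup (Fin g) →* H), (∀ k, φ (R k) = 1) →
      φ t = 1 → φ w = 1 → φ u = φ y) :
    QEquiv ⟨g, h + 3, Fin.append R ![t, u, w]⟩ ⟨g, h + 3, Fin.append R ![t, y, w]⟩ := by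
  refine (rep3 R _ 1 y ?_).trans' (QEquiv.of_eq ?_)
  · intro H _ φ h1 h2
    exact hy H φ h1 (h2 0 (by decide)) (h2 2 (by decide))
  · congr 1
    funext l
    fin_cases l <;> simp

theorem rep2 (t u w y : FreeGroup (Fin g))
    (hy : ∀ (H : Type) [Group H] (φ : FreeGroup (Fin g) →* H), (∀ k, φ (R k) = 1) →
      φ t = 1 → φ u = 1 → φ w = φ y) :
    QEquiv ⟨g, h + 3, Fin.append R ![t, u, w]⟩ ⟨g, h + 3, Fin.append R ![t, u, y]⟩ := by
  refine (rep3 R _ 2 y ?_).trans' (QEquiv.of_eq ?_)
  · intro H _ φ h1 h2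
    exact hy H φ h1 (h2 0 (by decide)) (h2 1 (by decide))
  · congr 1
    funext l
    fin_cases l <;> simp

theorem inv2 (t u w : FreeGroup (Fin g)) :
    QEquiv ⟨g, h + 3, Fin.append R ![t, u, w]⟩ ⟨g, h + 3, Fin.append R ![t, u, w⁻¹]⟩ := by
  refine (QEquiv.one (Move.inv g (h + 3) _ (Fin.natAdd h 2))).trans' (QEquiv.of_eq ?_)
  rw [upd]
  congr 1
  funext l
  fin_cases l <;> simp

end three

theorem comm_of_order {H : Type} [Group H] (x y : H) (m : ℕ) (hm : m.Coprime 3) (hx : x ^ m = 1)
    (h : x ^ 3 = y ^ 5) : Commute x y := by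
  obtain ⟨k, hk⟩ : ∃ k : ℕ, (x ^ 3) ^ k = x := by
    have hd : orderOf x ∣ m := orderOf_dvd_of_pow_eq_one hx
    have hc : (3 : ℕ).Coprime (orderOf x) := (Nat.Coprime.coprime_dvd_left hd hm).symm
    exact exists_pow_eq_self_of_coprime hc
  rw [← hk, h, ← pow_mul]
  exact (Commute.refl y).pow_left _

theorem final {g h : ℕ} (R : Fin h → FreeGroup (Fin g)) (S : FreeGroup (Fin g)) :
    QEquiv ⟨g + 2, h + 3, Fin.append (fun j => FreeGroup.map (Fin.castAdd 2) (R j))
      ![FreeGroup.map (Fin.castAdd 2) S, FreeGroup.of (Fin.natAdd g 0),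
        FreeGroup.of (Fin.natAdd g 1)]⟩ (presQ R S) := by
  have e : (⟨g + 2, h + 3, Fin.append (fun j => FreeGroup.map (Fin.castAdd 2) (R j))
      ![FreeGroup.map (Fin.castAdd 2) S, FreeGroup.of (Fin.natAdd g 0),
        FreeGroup.of (Fin.natAdd g 1)]⟩ : Pres) =
      prolong (prolong (presQ R S) (Fin.last _) (Fin.last _)) (Fin.last _) (Fin.last _) := by
    unfold prolong presQ
    simp only [Fin.succAbove_last, Fin.insertNth_last']
    congr 1
    funext k
    have hc : (Fin.castSucc ∘ Fin.castSucc : Fin g → Fin (g + 1 + 1)) = Fin.castAdd 2 := by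
      funext i; rfl
    refine Fin.addCases (fun k => ?_) (fun k => ?_) k
    · have e1 : Fin.castAdd 3 k = Fin.castSucc (Fin.castSucc (Fin.castAdd 1 k)) := rfl
      rw [Fin.append_left, e1, Fin.snoc_castSucc, Fin.snoc_castSucc, Fin.append_left,
        FreeGroup.map.comp, hc]
    · rw [Fin.append_right]
      fin_cases k
      · have e1 : Fin.natAdd h (0 : Fin 3) = Fin.castSucc (Fin.castSucc (Fin.natAdd h (0 : Fin 1))) := rfl
        simp only [Fin.zero_eta]
        rw [e1, Fin.snoc_castSucc, Fin.snoc_castSucc, Fin.append_right,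
          FreeGroup.map.comp, hc]
        rfl
      · have e1 : Fin.natAdd h (1 : Fin 3) = Fin.castSucc (Fin.last (h + 1)) := rfl
        simp only [Fin.mk_one]
        rw [e1, Fin.snoc_castSucc, Fin.snoc_last]
        rfl
      · have e1 : Fin.natAdd h (2 : Fin 3) = Fin.last (h + 1 + 1) := rfl
        simp only [Fin.reduceFinMk]
        rw [e1, Fin.snoc_last]
        rfl
  rw [e]
  exact (QEquiv.one (Move.delete _ _ _)).trans' (QEquiv.one (Move.delete _ _ _))

theorem main {g h : ℕ} (R : Fin h → FreeGroup (Fin g)) (S : FreeGroup (Fin g))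
    (hcop : (orderOf (PresentedGroup.mk (Set.range R) S)).Coprime 3) :
    QEquiv (presP R S) (presQ R S) := by
  refine QEquiv.trans' ?_ (final R S)
  unfold presP
  set b1 : FreeGroup (Fin (g + 2)) := FreeGroup.of (Fin.natAdd g 0)
  set b2 : FreeGroup (Fin (g + 2)) := FreeGroup.of (Fin.natAdd g 1)
  set s : FreeGroup (Fin (g + 2)) := FreeGroup.map (Fin.castAdd 2) S with hs
  refine (rep2 _ _ _ _ (b1 * (b2 ^ 2)⁻¹) ?_).trans' ?_
  · intro H _ φ h1 h2 h3
    have hS : φ s ^ orderOf (PresentedGroup.mk (Set.range R) S) = 1 := by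
      have hm : S ^ orderOf (PresentedGroup.mk (Set.range R) S) ∈
          Subgroup.normalClosure (Set.range R) := by
        rw [← PresentedGroup.mk_eq_one_iff, map_pow, pow_orderOf_eq_one]
      have hle : Subgroup.normalClosure (Set.range R) ≤
          (φ.comp (FreeGroup.map (Fin.castAdd 2))).ker := by
        apply Subgroup.normalClosure_le_normal
        rintro _ ⟨k, rfl⟩
        exact h1 k
      have := hle hm
      rw [MonoidHom.mem_ker, map_pow] at this
      exact this
    have e1 : φ s = φ b1 := by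
      rw [map_mul, map_inv, mul_inv_eq_one] at h2
      exact h2
    have e2 : φ b1 ^ 3 = φ b2 ^ 5 := by
      rw [map_mul, map_inv, mul_inv_eq_one, map_pow, map_pow] at h3
      exact h3
    have hc : Commute (φ b1) (φ b2) := comm_of_order _ _ _ hcop (e1 ▸ hS) e2
    simp only [map_mul, map_inv, map_pow]
    rw [hc.mul_pow, mul_inv_rev, ← (hc.pow_pow 2 2).inv_inv.eq]
    group
  refine (rep1 _ _ _ _ b2 ?_).trans' ?_
  · intro H _ φ _ _ h3
    rw [map_mul, map_inv, mul_inv_eq_one, map_pow] at h3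
    simp only [map_mul, map_inv, map_pow, h3]
    group
  refine (rep2 _ _ _ _ b1 ?_).trans' ?_
  · intro H _ φ _ _ h3
    simp [h3]
  refine (rep0 _ _ _ _ s ?_).trans' ?_
  · intro H _ φ _ _ h3
    simp [h3]
  refine (rep1 _ _ _ _ (b2 * b1) ?_).trans' ?_
  · intro H _ φ _ _ h3
    simp [h3]
  refine (rep2 _ _ _ _ b2⁻¹ ?_).trans' ?_
  · intro H _ φ _ _ h3
    rw [map_mul] at h3
    rw [map_inv]
    exact eq_inv_of_mul_eq_one_right h3
  refine (rep1 _ _ _ _ b1 ?_).trans' ?_
  · intro H _ φ _ _ h3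
    rw [map_inv, inv_eq_one] at h3
    simp [h3]
  refine (inv2 _ _ _ _).trans' (QEquiv.of_eq ?_)
  rw [inv_inv]

end Pool.Agent.H144Z.QStar
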